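import Pool.Agent.Lib.MP_0a5adf_nt.TP.Interfaces

/-!
Module MAXEXC (helper42): typical size of the maximum excursion.
-/

set_option autoImplicit false

namespace Pool.Agent.Lib.MP_0a5adf_nt.H42

open Finset Pool.Agent.Lib.MP_0a5adf_nt.TP

/-- The numbers below `y` have bounded trajectories. -/
theorem exists_common_bound (d : Bool) (hb : ∀ n, ∃ R : ℕ, ∀ k, (T d)^[k] n ≤ R) (Y : ℕ) :
    ∃ R : ℕ, ∀ n < Y, ∀ k, (T d)^[k] n ≤ R := by
  choose R hR using hb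
  refine ⟨∑ n ∈ range Y, R n, fun n hn k => (hR n k).trans ?_⟩
  exact single_le_sum (f := R) (fun _ _ => Nat.zero_le _) (mem_range.2 hn)

theorem maxexc (d : Bool) (h : FinalStatement d) : MaxExcStatement d := by
  intro hb lam ε hlam hε
  obtain ⟨c, C, hc, hC, hF⟩ := h
  -- choice of `y`
  obtain ⟨y, hy1, hy⟩ : ∃ y : ℝ, 1 ≤ y ∧ C / y ^ c ≤ ε := by
    have h1 : Filter.Tendsto (fun y : ℝ => C / y ^ c) Filter.atTop (nhds 0) :=
      (tendsto_rpow_atTop hc).const_div_atTop C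
    have h2 : ∀ᶠ y : ℝ in Filter.atTop, C / y ^ c < ε := h1.eventually_lt_const hε
    obtain ⟨y, h3, h4⟩ := (h2.and (Filter.eventually_ge_atTop (1 : ℝ))).exists
    exact ⟨y, h4, h3.le⟩
  obtain ⟨R, hR⟩ := exists_common_bound d hb ⌈y⌉₊
  obtain ⟨L₀, hL₀⟩ : ∃ L₀ : ℕ, R < 2 ^ L₀ := ⟨R, Nat.lt_two_pow_self⟩
  refine ⟨max L₀ 1, fun L hL => ?_⟩
  have hL1 : 1 ≤ L := (le_max_right _ _).trans hL
  have hRL : R < 2 ^ L := hL₀.trans_le (Nat.pow_le_pow_right (by norm_num) ((le_max_left _ _).trans hL))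
  have hsub : {n : ℕ | 2 ^ L ≤ n ∧ n < 2 ^ (L + 1) ∧ ∃ k, lam * n ≤ ((T d)^[k] n : ℝ)} ⊆
      Fail d L y lam := by
    rintro n ⟨h1, h2, k, hk⟩
    refine ⟨h1, h2, ?_⟩
    rintro ⟨k', hk', hj⟩
    rcases Nat.lt_or_ge k k' with hlt | hge
    · exact absurd hk (not_le.2 (hj k hlt))
    · obtain ⟨i, rfl⟩ := Nat.exists_eq_add_of_le hge
      have h3 : (T d)^[k' + i] n = (T d)^[i] ((T d)^[k'] n) := by
        rw [add_comm, Function.iterate_add_apply]
      have h4 : (T d)^[k'] n < ⌈y⌉₊ := by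
        rw [Nat.lt_ceil]
        exact hk'
      have h5 := hR _ h4 i
      rw [← h3] at h5
      have h6 : ((T d)^[k' + i] n : ℝ) < n := by
        have : (T d)^[k' + i] n < n := (h5.trans_lt hRL).trans_le h1
        exact_mod_cast this
      have h7 : (n : ℝ) ≤ lam * n := by
        have : (0 : ℝ) ≤ n := Nat.cast_nonneg n
        nlinarith
      linarith
  have hfin : (Fail d L y lam).Finite :=
    (Set.finite_lt_nat (2 ^ (L + 1))).subset fun n hn => hn.2.1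
  have h8 : ({n : ℕ | 2 ^ L ≤ n ∧ n < 2 ^ (L + 1) ∧
      ∃ k, lam * n ≤ ((T d)^[k] n : ℝ)}.ncard : ℝ) ≤ (Fail d L y lam).ncard := by
    exact_mod_cast Set.ncard_le_ncard hsub hfin
  refine h8.trans ((hF L y lam hL1 hy1 hlam).trans ?_)
  gcongr

end Pool.Agent.Lib.MP_0a5adf_nt.H42
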